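import Mathlib

/-!
# The `R`-rank of a tensor

A tensor of order `d` is a function `T : ((α : Fin d) → Q α) → K`.  For a family `R` of
partitions of `Fin d` we define the `R`-rank of `T` and the minors of `T`.
-/

set_option autoImplicit false

open Finset

namespace Pool.Agent.RRank

universe u v

/-- The partitions of the index set `Fin d` (sets of nonempty, pairwise disjoint subsets whose
union is everything). -/
abbrev IndexPartition (d : ℕ) := Finpartition (univ : Finset (Fin d))

/-- A tensor `t` has `R`-rank at most one: there are `P ∈ R` and functions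
`a I : ∏_{α ∈ I} Q α → K` for `I ∈ P` such that `t x = ∏_{I ∈ P} a I (x restricted to I)`. -/
def RankLEOne {d : ℕ} {Q : Fin d → Type u} {K : Type v} [Field K] (R : Set (IndexPartition d))
    (t : ((α : Fin d) → Q α) → K) : Prop :=
  ∃ P ∈ R, ∃ a : (I : Finset (Fin d)) → ((α : I) → Q α) → K,
    ∀ x, t x = ∏ I ∈ P.parts, a I (fun α => x α)

/-- `T` is a sum of `r` tensors of `R`-rank at most one. -/
def SumOf {d : ℕ} {Q : Fin d → Type u} {K : Type v} [Field K] (R : Set (IndexPartition d))
    (T : ((α : Fin d) → Q α) → K) (r : ℕ) : Prop :=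
  ∃ t : Fin r → ((α : Fin d) → Q α) → K, (∀ i, RankLEOne R (t i)) ∧ ∀ x, T x = ∑ i, t i x

/-- The `R`-rank of `T`: the least `r` such that `T` is a sum of `r` tensors of `R`-rank at most
one (infinity if there is no such `r`). -/
noncomputable def rank {d : ℕ} {Q : Fin d → Type u} {K : Type v} [Field K]
    (R : Set (IndexPartition d)) (T : ((α : Fin d) → Q α) → K) : ℕ∞ :=
  sInf {r : ℕ∞ | ∃ k : ℕ, r = k ∧ SumOf R T k}

/-- The minor `T(∏ X α)` of a tensor: its restriction to the product of the sets `X α`. -/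
def minor {d : ℕ} {Q : Fin d → Type u} {K : Type v} (T : ((α : Fin d) → Q α) → K)
    (X : (α : Fin d) → Finset (Q α)) : ((α : Fin d) → X α) → K :=
  fun x => T (fun α => (x α : Q α))

section Basic

variable {d : ℕ} {Q : Fin d → Type u} {K : Type v} [Field K] {R : Set (IndexPartition d)}

/-- Reformulation of `RankLEOne` with functions of the full tuple. -/
lemma rankLEOne_iff {t : ((α : Fin d) → Q α) → K} :
    RankLEOne R t ↔ ∃ P ∈ R, ∃ b : Finset (Fin d) → ((α : Fin d) → Q α) → K,
      (∀ I ∈ P.parts, DependsOn (b I) (I : Set (Fin d))) ∧ ∀ x, t x = ∏ I ∈ P.parts, b I x := by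
  constructor
  · rintro ⟨P, hP, a, ha⟩
    refine ⟨P, hP, fun I x => a I (fun α => x α), ?_, ha⟩
    intro I _ x y hxy
    have h : (fun α : I => x α) = fun α : I => y α := funext fun α => hxy α.1 α.2
    show a I (fun α : I => x α) = a I (fun α : I => y α)
    rw [h]
  · rintro ⟨P, hP, b, hb, ht⟩
    refine ⟨P, hP, ?_⟩
    classical
    by_cases hne : Nonempty ((α : Fin d) → Q α)
    · obtain ⟨x₀⟩ := hne
      refine ⟨fun I y => b I (fun α => if h : α ∈ I then y ⟨α, h⟩ else x₀ α), fun x => ?_⟩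
      rw [ht]
      refine Finset.prod_congr rfl fun I hI => ?_
      apply hb I hI
      intro α hα
      simp only [Finset.mem_coe] at hα
      simp [hα]
    · exact ⟨fun _ _ => 0, fun x => (hne ⟨x⟩).elim⟩

lemma RankLEOne.smul {t : ((α : Fin d) → Q α) → K} (h : RankLEOne R t)
    (hR : ∀ P ∈ R, P.parts.Nonempty) (c : K) : RankLEOne R (fun x => c * t x) := by
  classical
  obtain ⟨P, hP, b, hb, ht⟩ := rankLEOne_iff.1 h
  obtain ⟨I₀, hI₀⟩ := hR P hP
  refine rankLEOne_iff.2 ⟨P, hP, fun I x => if I = I₀ then c * b I x else b I x, ?_, ?_⟩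
  · intro I hI x y hxy
    dsimp only
    rw [hb I hI hxy]
  · intro x
    rw [ht, ← Finset.mul_prod_erase _ _ hI₀, ← Finset.mul_prod_erase _ _ hI₀]
    simp only [if_true]
    rw [mul_assoc]
    congr 2
    refine Finset.prod_congr rfl fun I hI => ?_
    rw [if_neg (Finset.ne_of_mem_erase hI)]

lemma SumOf.of_finset {ι : Type*} (s : Finset ι) (t : ι → ((α : Fin d) → Q α) → K)
    (ht : ∀ i ∈ s, RankLEOne R (t i)) {T : ((α : Fin d) → Q α) → K}
    (hT : ∀ x, T x = ∑ i ∈ s, t i x) : SumOf R T s.card := by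
  classical
  refine ⟨fun i => t (s.equivFin.symm i), fun i => ht _ (s.equivFin.symm i).2, fun x => ?_⟩
  rw [hT, ← Finset.sum_coe_sort]
  exact (Equiv.sum_comp s.equivFin.symm (fun i : s => t i x)).symm

lemma SumOf.zero : SumOf R (fun _ : (α : Fin d) → Q α => (0 : K)) 0 :=
  ⟨fun i => i.elim0, fun i => i.elim0, fun x => by simp⟩

lemma SumOf.one {t : ((α : Fin d) → Q α) → K} (h : RankLEOne R t) : SumOf R t 1 :=
  ⟨fun _ => t, fun _ => h, fun x => by simp⟩

lemma SumOf.add {T₁ T₂ : ((α : Fin d) → Q α) → K} {r₁ r₂ : ℕ} (h₁ : SumOf R T₁ r₁)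
    (h₂ : SumOf R T₂ r₂) : SumOf R (fun x => T₁ x + T₂ x) (r₁ + r₂) := by
  obtain ⟨t₁, a₁, b₁⟩ := h₁
  obtain ⟨t₂, a₂, b₂⟩ := h₂
  refine ⟨Fin.append t₁ t₂, fun i => ?_, fun x => ?_⟩
  · refine Fin.addCases (fun i => ?_) (fun i => ?_) i
    · rw [Fin.append_left]; exact a₁ i
    · rw [Fin.append_right]; exact a₂ i
  · rw [Fin.sum_univ_add]
    simp [b₁, b₂]

lemma SumOf.smul {T : ((α : Fin d) → Q α) → K} {r : ℕ} (h : SumOf R T r)
    (hR : ∀ P ∈ R, P.parts.Nonempty) (c : K) : SumOf R (fun x => c * T x) r := by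
  obtain ⟨t, ht, hT⟩ := h
  refine ⟨fun i x => c * t i x, fun i => (ht i).smul hR c, fun x => ?_⟩
  show c * T x = ∑ i, c * t i x
  rw [hT, Finset.mul_sum]

lemma rank_le_of_sumOf {T : ((α : Fin d) → Q α) → K} {r : ℕ} (h : SumOf R T r) :
    rank R T ≤ r := sInf_le ⟨r, rfl, h⟩

lemma exists_sumOf_of_rank_lt {T : ((α : Fin d) → Q α) → K} {n : ℕ} (h : rank R T < n) :
    ∃ r : ℕ, r < n ∧ SumOf R T r := by
  obtain ⟨_, ⟨r, rfl, hr⟩, hlt⟩ := sInf_lt_iff.1 h
  exact ⟨r, by exact_mod_cast hlt, hr⟩

lemma not_sumOf_of_le_rank {T : ((α : Fin d) → Q α) → K} {n : ℕ} (h : (n : ℕ∞) ≤ rank R T)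
    {r : ℕ} (hr : r < n) : ¬ SumOf R T r := by
  intro hs
  have h1 : (n : ℕ∞) ≤ r := h.trans (rank_le_of_sumOf hs)
  have h2 : n ≤ r := by exact_mod_cast h1
  omega

end Basic

section Two

variable {d : ℕ} {Q : Fin d → Type u} {K : Type v} [Field K]

/-- The family of all partitions of `Fin d` into exactly two parts; the rank it defines is the
partition rank. -/
def twoParts (d : ℕ) : Set (IndexPartition d) := {P | P.parts.card = 2}

/-- The partition `{I, Iᶜ}`. -/
def pairPartition (I : Finset (Fin d)) (h1 : I.Nonempty) (h2 : (Iᶜ).Nonempty) :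
    IndexPartition d where
  parts := {I, Iᶜ}
  supIndep := by
    classical
    rw [Finset.supIndep_pair (by
      intro h
      obtain ⟨x, hx⟩ := h1
      have : x ∈ Iᶜ := h ▸ hx
      simp [hx] at this)]
    exact disjoint_compl_right
  sup_parts := by
    rw [Finset.sup_insert, Finset.sup_singleton]
    simp
  bot_notMem := by
    simp only [Finset.bot_eq_empty, Finset.mem_insert, Finset.mem_singleton, not_or]
    exact ⟨fun h => by simp [← h] at h1, fun h => by simp [← h] at h2⟩

lemma ne_compl_of_nonempty {I : Finset (Fin d)} (h1 : I.Nonempty) : I ≠ Iᶜ := by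
  intro h
  obtain ⟨x, hx⟩ := h1
  have : x ∈ Iᶜ := h ▸ hx
  simp [hx] at this

lemma pairPartition_mem (I : Finset (Fin d)) (h1 : I.Nonempty) (h2 : (Iᶜ).Nonempty) :
    pairPartition I h1 h2 ∈ twoParts d := by
  show ({I, Iᶜ} : Finset (Finset (Fin d))).card = 2
  exact Finset.card_pair (ne_compl_of_nonempty h1)

/-- A product of a function of the coordinates in `I` and one of the other coordinates has
partition rank at most one. -/
lemma rankLEOne_mul {I : Finset (Fin d)} (h1 : I.Nonempty) (h2 : (Iᶜ).Nonempty)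
    {f g : ((α : Fin d) → Q α) → K} (hf : DependsOn f (I : Set (Fin d)))
    (hg : DependsOn g ((Iᶜ : Finset (Fin d)) : Set (Fin d))) :
    RankLEOne (twoParts d) (fun x => f x * g x) := by
  classical
  refine rankLEOne_iff.2 ⟨pairPartition I h1 h2, pairPartition_mem I h1 h2,
    fun J x => if J = I then f x else g x, ?_, ?_⟩
  · intro J hJ x y hxy
    have hJ' : J = I ∨ J = Iᶜ := by
      have : J ∈ ({I, Iᶜ} : Finset (Finset (Fin d))) := hJ
      simpa using this
    dsimp only
    rcases hJ' with rfl | rfl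
    · rw [if_pos rfl, if_pos rfl]; exact hf hxy
    · rw [if_neg (ne_compl_of_nonempty h1).symm, if_neg (ne_compl_of_nonempty h1).symm]
      exact hg hxy
  · intro x
    show f x * g x = ∏ J ∈ ({I, Iᶜ} : Finset (Finset (Fin d))), if J = I then f x else g x
    rw [Finset.prod_pair (ne_compl_of_nonempty h1), if_pos rfl,
      if_neg (ne_compl_of_nonempty h1).symm]

/-- Conversely, a tensor of partition rank at most one is such a product, and we may choose
the set `I` to contain any given index. -/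
lemma exists_mul_of_rankLEOne (α₀ : Fin d) {t : ((α : Fin d) → Q α) → K}
    (h : RankLEOne (twoParts d) t) :
    ∃ I : Finset (Fin d), α₀ ∈ I ∧ (Iᶜ).Nonempty ∧ ∃ f g : ((α : Fin d) → Q α) → K,
      DependsOn f (I : Set (Fin d)) ∧ DependsOn g ((Iᶜ : Finset (Fin d)) : Set (Fin d)) ∧
      ∀ x, t x = f x * g x := by
  classical
  obtain ⟨P, hP, b, hb, ht⟩ := rankLEOne_iff.1 h
  obtain ⟨I, J, hIJ, hparts⟩ := Finset.card_eq_two.1 (show P.parts.card = 2 from hP)
  have hI : I ∈ P.parts := by rw [hparts]; simp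
  have hJ : J ∈ P.parts := by rw [hparts]; simp
  have hdisj : Disjoint I J := P.disjoint hI hJ hIJ
  have hunion : I ∪ J = univ := by
    have := P.sup_parts
    rw [hparts, Finset.sup_insert, Finset.sup_singleton] at this
    exact this
  have hJc : J = Iᶜ := by
    ext x
    have h1 : x ∈ I ∪ J := by rw [hunion]; exact Finset.mem_univ x
    rw [Finset.mem_union] at h1
    rw [Finset.mem_compl]
    constructor
    · intro h2 h3; exact (Finset.disjoint_left.1 hdisj) h3 h2
    · intro h2; exact h1.resolve_left h2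
  have hIc : I = Jᶜ := by rw [hJc, compl_compl]
  have hprod : ∀ x, t x = b I x * b J x := by
    intro x
    rw [ht, hparts, Finset.prod_pair hIJ]
  by_cases hα : α₀ ∈ I
  · refine ⟨I, hα, ?_, b I, b J, hb I hI, ?_, hprod⟩
    · rw [← hJc]; exact P.nonempty_of_mem_parts hJ
    · rw [← hJc]; exact hb J hJ
  · refine ⟨J, ?_, ?_, b J, b I, hb J hJ, ?_, fun x => by rw [hprod, mul_comm]⟩
    · rw [hJc]; simpa using hα
    · rw [← hIc]; exact P.nonempty_of_mem_parts hI
    · rw [← hIc]; exact hb I hI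

/-- The family of the partitions `{{α}, {α}ᶜ}`; the rank it defines is the slice rank. -/
def slices (d : ℕ) : Set (IndexPartition d) := {P | P.parts.card = 2 ∧ ∃ α, {α} ∈ P.parts}

/-- For order three the slice rank is the partition rank. -/
lemma slices_three : slices 3 = twoParts 3 := by
  classical
  ext P
  constructor
  · exact fun h => h.1
  · intro h
    refine ⟨h, ?_⟩
    obtain ⟨I, J, hIJ, hparts⟩ := Finset.card_eq_two.1 (show P.parts.card = 2 from h)
    have hsum := P.sum_card_parts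
    rw [hparts, Finset.sum_pair hIJ, Finset.card_univ, Fintype.card_fin] at hsum
    have hI : I ∈ P.parts := by rw [hparts]; simp
    have hJ : J ∈ P.parts := by rw [hparts]; simp
    have h1 : 0 < I.card := Finset.card_pos.2 (P.nonempty_of_mem_parts hI)
    have h2 : 0 < J.card := Finset.card_pos.2 (P.nonempty_of_mem_parts hJ)
    rcases (show I.card = 1 ∨ J.card = 1 by omega) with h3 | h3
    · obtain ⟨α, hα⟩ := Finset.card_eq_one.1 h3
      exact ⟨α, hα ▸ hI⟩
    · obtain ⟨α, hα⟩ := Finset.card_eq_one.1 h3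
      exact ⟨α, hα ▸ hJ⟩

/-- Every tensor of `R`-rank at most one, where the partitions in `R` have at least two parts,
has partition rank at most one. -/
lemma RankLEOne.coarsen {R : Set (IndexPartition d)} (hR : ∀ P ∈ R, 2 ≤ P.parts.card)
    {t : ((α : Fin d) → Q α) → K} (h : RankLEOne R t) : RankLEOne (twoParts d) t := by
  classical
  obtain ⟨P, hP, b, hb, ht⟩ := rankLEOne_iff.1 h
  obtain ⟨I, J, hI, hJ, hIJ⟩ := Finset.one_lt_card_iff.1
    (show 1 < P.parts.card by have := hR P hP; omega)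
  have h1 : I.Nonempty := P.nonempty_of_mem_parts hI
  have h2 : (Iᶜ).Nonempty := by
    obtain ⟨x, hx⟩ := P.nonempty_of_mem_parts hJ
    refine ⟨x, ?_⟩
    rw [Finset.mem_compl]
    intro hx'
    exact (Finset.disjoint_left.1 (P.disjoint hI hJ hIJ)) hx' hx
  have h3 := rankLEOne_mul (K := K) (Q := Q) h1 h2 (f := b I)
    (g := fun x => ∏ J ∈ P.parts.erase I, b J x) (hb I hI) ?_
  · convert h3 using 1
    funext x
    rw [ht, ← Finset.mul_prod_erase _ _ hI]
  · intro x y hxy
    refine Finset.prod_congr rfl fun J hJ => ?_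
    apply hb J (Finset.mem_of_mem_erase hJ)
    intro α hα
    apply hxy
    rw [Finset.mem_coe, Finset.mem_compl]
    intro hα'
    exact (Finset.disjoint_left.1 (P.disjoint (Finset.mem_of_mem_erase hJ) hI
      (Finset.ne_of_mem_erase hJ))) hα hα'

/-- If `R` contains all partitions into two parts, and all its members have at least two parts,
then the `R`-rank is the partition rank. -/
lemma rank_eq_rank_twoParts {R : Set (IndexPartition d)} (h1 : twoParts d ⊆ R)
    (h2 : ∀ P ∈ R, 2 ≤ P.parts.card) (T : ((α : Fin d) → Q α) → K) :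
    rank R T = rank (twoParts d) T := by
  unfold rank
  congr 1
  ext r
  constructor
  · rintro ⟨k, rfl, t, ht, hT⟩
    exact ⟨k, rfl, t, fun i => (ht i).coarsen h2, hT⟩
  · rintro ⟨k, rfl, t, ht, hT⟩
    refine ⟨k, rfl, t, fun i => ?_, hT⟩
    obtain ⟨P, hP, a, ha⟩ := ht i
    exact ⟨P, h1 hP, a, ha⟩

end Two

end Pool.Agent.RRank
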