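import Pool.Agent.helper65.GCA.Defs

set_option autoImplicit false

/-!
# mod:A10a: the generic fibre of a set of polynomials in one variable with parameters
-/

namespace Pool.Agent.helper65.GCA

open Polynomial

namespace A10a

section Field

variable {K : Type*} [Field K] [CharZero K]

/-- The part of a nonzero polynomial `p` prime to `g`, made squarefree. -/
theorem exists_part (p g : K[X]) (hp : p ≠ 0) :
    ∃ q : K[X], q ≠ 0 ∧ q.Separable ∧ q ∣ p ∧ IsCoprime q g ∧ ∃ n, p ∣ (q * g) ^ n := by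
  classical
  set r := UniqueFactorizationMonoid.radical p with hr
  have hr0 : r ≠ 0 := UniqueFactorizationMonoid.radical_ne_zero
  have hsq : Squarefree r := UniqueFactorizationMonoid.squarefree_radical
  obtain ⟨q, hq⟩ : gcd r g ∣ r := gcd_dvd_left _ _
  have hq0 : q ≠ 0 := by
    rintro rfl
    exact hr0 (by rw [hq, mul_zero])
  have hqr : q ∣ r := Dvd.intro_left _ hq.symm
  have hqsq : Squarefree q := hsq.squarefree_of_dvd hqr
  refine ⟨q, hq0, PerfectField.separable_iff_squarefree.2 hqsq,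
    hqr.trans UniqueFactorizationMonoid.radical_dvd_self, ?_, ?_⟩
  · rw [← isRelPrime_iff_isCoprime]
    intro d hdq hdg
    have h1 : d ∣ gcd r g := dvd_gcd (hdq.trans hqr) hdg
    have h2 : d * d ∣ r := by
      rw [hq]
      exact mul_dvd_mul h1 hdq
    exact hsq d h2
  · obtain ⟨n, hn⟩ := UniqueFactorizationMonoid.exists_dvd_radical_self_pow hp
    refine ⟨n, hn.trans (pow_dvd_pow_of_dvd ?_ n)⟩
    rw [← hr, hq, mul_comm q g]
    exact mul_dvd_mul_right (gcd_dvd_right _ _) _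

end Field

section Frac

variable {A K : Type*} [CommRing A] [Field K] (φ : A →+* K) (J : Ideal A)

/-- Clearing denominators. -/
theorem exists_clear [hJ : J.IsPrime] (hfrac : ∀ z : K, ∃ c ∉ J, ∃ a, φ c * z = φ a) (P : K[X]) :
    ∃ c ∉ J, ∃ L : A[X], C (φ c) * P = L.map φ := by
  induction P using Polynomial.induction_on' with
  | add p q hp hq =>
    obtain ⟨c, hc, L, hL⟩ := hp
    obtain ⟨c', hc', L', hL'⟩ := hq
    refine ⟨c * c', fun h => (hJ.mem_or_mem h).elim hc hc', C c' * L + C c * L', ?_⟩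
    rw [Polynomial.map_add, Polynomial.map_mul, Polynomial.map_mul, ← hL, ← hL', map_C, map_C,
      map_mul, C_mul]
    ring
  | monomial n z =>
    obtain ⟨c, hc, a, ha⟩ := hfrac z
    refine ⟨c, hc, monomial n a, ?_⟩
    rw [map_monomial, C_mul_monomial, ha]

theorem exists_clear_ideal [hJ : J.IsPrime] (hfrac : ∀ z : K, ∃ c ∉ J, ∃ a, φ c * z = φ a)
    (I : Ideal A[X]) {z : K[X]} (hz : z ∈ I.map (mapRingHom φ)) :
    ∃ c ∉ J, ∃ W ∈ I, C (φ c) * z = W.map φ := by
  refine Submodule.span_induction ?_ ?_ ?_ ?_ hz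
  · rintro _ ⟨W, hW, rfl⟩
    refine ⟨1, fun h => hJ.ne_top ((Ideal.eq_top_iff_one _).2 h), W, hW, ?_⟩
    rw [map_one, C_1, one_mul]
    rfl
  · refine ⟨1, fun h => hJ.ne_top ((Ideal.eq_top_iff_one _).2 h), 0, I.zero_mem, ?_⟩
    rw [mul_zero, Polynomial.map_zero]
  · rintro x y - - ⟨c, hc, W, hW, h⟩ ⟨c', hc', W', hW', h'⟩
    refine ⟨c * c', fun h => (hJ.mem_or_mem h).elim hc hc', C c' * W + C c * W',
      I.add_mem (I.mul_mem_left _ hW) (I.mul_mem_left _ hW'), ?_⟩
    rw [Polynomial.map_add, Polynomial.map_mul, Polynomial.map_mul, ← h, ← h', map_C, map_C,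
      map_mul, C_mul]
    ring
  · rintro P x - ⟨c, hc, W, hW, h⟩
    obtain ⟨c', hc', L, hL⟩ := exists_clear φ J hfrac P
    refine ⟨c * c', fun h => (hJ.mem_or_mem h).elim hc hc', L * W, I.mul_mem_left _ hW, ?_⟩
    rw [Polynomial.map_mul, ← h, ← hL, map_mul, C_mul, smul_eq_mul]
    ring

variable (hker : ∀ a, φ a = 0 → a ∈ J)

include hker in
/-- Identities in the field of fractions specialise. -/
theorem map_eq_of_map_eq {k : Type*} [Field k] {ev : A →+* k} (hev : ∀ f ∈ J, ev f = 0)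
    {P Q : A[X]} (h : P.map φ = Q.map φ) : P.map ev = Q.map ev := by
  ext i
  have h1 := congrArg (fun R : K[X] => R.coeff i) h
  simp only [coeff_map] at h1 ⊢
  have h2 : φ (P.coeff i - Q.coeff i) = 0 := by rw [map_sub, h1, sub_self]
  have h3 := hev _ (hker _ h2)
  rw [map_sub] at h3
  exact sub_eq_zero.1 h3

theorem main [CharZero K] [IsNoetherianRing A] [hJ : J.IsPrime]
    (hker : ∀ a, φ a = 0 → a ∈ J) (hφ : ∀ a ∈ J, φ a = 0)
    (hfrac : ∀ z : K, ∃ c ∉ J, ∃ a, φ c * z = φ a) (S : Set A[X]) (G : A[X])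
    (hS : ∃ F ∈ S, ∃ k, F.coeff k ∉ J) (k : Type*) [Field k] :
    ∃ h ∉ J, ∃ (Q : A[X]) (e : ℕ), ∀ ev : A →+* k, (∀ f ∈ J, ev f = 0) → ev h ≠ 0 →
        (Q.map ev).Separable ∧ (Q.map ev).natDegree = e ∧
        ∀ y, (Q.map ev).IsRoot y ↔
          (∀ F ∈ S, (F.map ev).IsRoot y) ∧ ¬ (G.map ev).IsRoot y := by
  classical
  have hone : (1 : A) ∉ J := fun h => hJ.ne_top ((Ideal.eq_top_iff_one _).2 h)
  have hmul : ∀ {a b : A}, a ∉ J → b ∉ J → a * b ∉ J := fun ha hb h =>
    (hJ.mem_or_mem h).elim ha hb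
  -- the ideal generated by `S` is generated by finitely many elements
  set I : Ideal A[X] := Ideal.span S with hI
  obtain ⟨T, hT⟩ : I.FG := IsNoetherian.noetherian I
  -- the generator of its image in `K[X]`
  set IK : Ideal K[X] := I.map (mapRingHom φ) with hIK
  obtain ⟨p, hp⟩ : ∃ p : K[X], IK = Ideal.span {p} :=
    ⟨Submodule.IsPrincipal.generator IK, (Ideal.span_singleton_generator IK).symm⟩
  have hmemIK : ∀ F ∈ I, F.map φ ∈ IK := fun F hF => Ideal.mem_map_of_mem (mapRingHom φ) hF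
  have hp0 : p ≠ 0 := by
    rintro rfl
    obtain ⟨F, hF, i, hi⟩ := hS
    have h1 : F.map φ ∈ IK := hmemIK F (Ideal.subset_span hF)
    rw [hp, Ideal.span_singleton_eq_bot.2 rfl, Ideal.mem_bot] at h1
    apply hi
    apply hker
    rw [← coeff_map, h1, coeff_zero]
  obtain ⟨q₀, hq₀0, hq₀sep, hq₀p, hq₀g, M, hM⟩ := exists_part p (G.map φ) hp0
  -- make it integral
  obtain ⟨c₀, hc₀, Q, hQ⟩ := exists_clear φ J hfrac q₀
  have hφc₀ : φ c₀ ≠ 0 := fun h => hc₀ (hker _ h)
  have hunit : IsUnit (C (φ c₀)) := isUnit_C.2 (isUnit_iff_ne_zero.2 hφc₀)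
  have hass : Associated q₀ (Q.map φ) := ⟨hunit.unit, by rw [IsUnit.unit_spec, mul_comm, hQ]⟩
  have hQ0 : Q.map φ ≠ 0 := fun h => hq₀0 (hass.eq_zero_iff.2 h)
  have hQsep : (Q.map φ).Separable := by
    rw [← hQ]
    exact hq₀sep.unit_mul hunit
  have hQp : Q.map φ ∣ p := hass.symm.dvd.trans hq₀p
  have hQg : IsCoprime (Q.map φ) (G.map φ) := by
    rw [← hQ]
    exact (isCoprime_mul_unit_left_left hunit _ _).2 hq₀g
  have hM' : p ∣ (Q.map φ * G.map φ) ^ M := by
    refine hM.trans (pow_dvd_pow_of_dvd ?_ M)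
    rw [← hQ, mul_assoc]
    exact Dvd.intro_left _ rfl
  -- (a) separability
  obtain ⟨u, v, huv⟩ := hQsep
  obtain ⟨c₁, hc₁, U, hU⟩ := exists_clear φ J hfrac u
  obtain ⟨c₁', hc₁', V, hV⟩ := exists_clear φ J hfrac v
  have ha : (C (c₁ * c₁') : A[X]).map φ = (C c₁' * U * Q + C c₁ * V * derivative Q).map φ := by
    rw [Polynomial.map_add, Polynomial.map_mul, Polynomial.map_mul, Polynomial.map_mul,
      Polynomial.map_mul, ← hU, ← hV, map_C, map_C, map_C, map_mul, C_mul, ← derivative_map]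
    linear_combination -(C (φ c₁) * C (φ c₁')) * huv
  -- (c) coprimality with `G`
  obtain ⟨u', v', huv'⟩ := hQg
  obtain ⟨c₃, hc₃, U', hU'⟩ := exists_clear φ J hfrac u'
  obtain ⟨c₃', hc₃', V', hV'⟩ := exists_clear φ J hfrac v'
  have hc : (C (c₃ * c₃') : A[X]).map φ = (C c₃' * U' * Q + C c₃ * V' * G).map φ := by
    rw [Polynomial.map_add, Polynomial.map_mul, Polynomial.map_mul, Polynomial.map_mul,
      Polynomial.map_mul, ← hU', ← hV', map_C, map_C, map_C, map_mul, C_mul]
    linear_combination -(C (φ c₃) * C (φ c₃')) * huv'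
  -- (b) divisibility
  have hb : ∀ F ∈ T, ∃ c ∉ J, ∃ L : A[X], (C c * F).map φ = (Q * L).map φ := by
    intro F hF
    have h1 : F.map φ ∈ IK := hmemIK F (by rw [← hT]; exact Submodule.subset_span hF)
    rw [hp, Ideal.mem_span_singleton] at h1
    obtain ⟨w, hw⟩ := hQp.trans h1
    obtain ⟨c, hc, L, hL⟩ := exists_clear φ J hfrac w
    refine ⟨c, hc, L, ?_⟩
    rw [Polynomial.map_mul, Polynomial.map_mul, map_C, ← hL, hw]
    ring
  choose! cF hcF LF hLF using hb
  -- (d) Nullstellensatz identity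
  obtain ⟨c₄, hc₄, W, hWI, hW⟩ : ∃ c ∉ J, ∃ W ∈ I, C (φ c) * (Q.map φ * G.map φ) ^ M = W.map φ := by
    apply exists_clear_ideal φ J hfrac I
    rw [← hIK, hp, Ideal.mem_span_singleton]
    exact hM'
  have hd : (C c₄ * (Q * G) ^ M).map φ = W.map φ := by
    rw [← hW, Polynomial.map_mul, Polynomial.map_pow, Polynomial.map_mul, map_C]
  -- the bad locus
  set e := (Q.map φ).natDegree with he
  have hlc : Q.coeff e ∉ J := by
    intro h
    have h1 := hφ _ h
    rw [← coeff_map] at h1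
    exact (leadingCoeff_ne_zero.2 hQ0) h1
  refine ⟨(c₁ * c₁') * (c₃ * c₃') * c₄ * Q.coeff e * ∏ F ∈ T, cF F, ?_, Q, e, ?_⟩
  · refine hmul (hmul (hmul (hmul (hmul hc₁ hc₁') (hmul hc₃ hc₃')) hc₄) hlc) ?_
    intro h
    obtain ⟨F, hF, h1⟩ := (hJ.prod_mem_iff).1 h
    exact hcF F hF h1
  intro ev hev hne
  rw [map_mul, map_mul, map_mul, map_mul, map_prod] at hne
  have hn5 := right_ne_zero_of_mul hne
  have hne1 := left_ne_zero_of_mul hne
  have hn4 := right_ne_zero_of_mul hne1
  have hne2 := left_ne_zero_of_mul hne1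
  have hn3 := right_ne_zero_of_mul hne2
  have hne3 := left_ne_zero_of_mul hne2
  have hn2 := right_ne_zero_of_mul hne3
  have hn1 := left_ne_zero_of_mul hne3
  -- specialise the identities
  have ha' := map_eq_of_map_eq φ J hker hev ha
  have hc' := map_eq_of_map_eq φ J hker hev hc
  have hd' := map_eq_of_map_eq φ J hker hev hd
  have hb' : ∀ F ∈ T, (C (cF F) * F).map ev = (Q * LF F).map ev := fun F hF =>
    map_eq_of_map_eq φ J hker hev (hLF F hF)
  -- zeros of the ideal
  have hzero : ∀ y : k, (∀ F ∈ S, (F.map ev).IsRoot y) ↔ ∀ F ∈ I, (F.map ev).IsRoot y := by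
    intro y
    constructor
    · intro h F hF
      have h1 : I ≤ RingHom.ker (eval₂RingHom ev y) := by
        rw [hI, Ideal.span_le]
        intro F hF
        have := h F hF
        rw [IsRoot.def, eval_map] at this
        exact this
      have h2 := h1 hF
      rw [IsRoot.def, eval_map]
      exact h2
    · intro h F hF
      exact h F (Ideal.subset_span hF)
  have hzeroT : ∀ y : k, (∀ F ∈ I, (F.map ev).IsRoot y) ↔ ∀ F ∈ T, (F.map ev).IsRoot y := by
    intro y
    constructor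
    · intro h F hF
      exact h F (by rw [← hT]; exact Submodule.subset_span hF)
    · intro h F hF
      have h1 : I ≤ RingHom.ker (eval₂RingHom ev y) := by
        rw [← hT]
        refine Submodule.span_le.2 ?_
        intro F hF
        have := h F hF
        rw [IsRoot.def, eval_map] at this
        exact this
      have h2 := h1 hF
      rw [IsRoot.def, eval_map]
      exact h2
  refine ⟨?_, ?_, ?_⟩
  · simp only [Polynomial.map_add, Polynomial.map_mul, map_C] at ha'
    rw [← derivative_map] at ha'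
    refine ⟨C (ev (c₁ * c₁'))⁻¹ * (C (ev c₁') * U.map ev),
      C (ev (c₁ * c₁'))⁻¹ * (C (ev c₁) * V.map ev), ?_⟩
    have h1 : (C (ev (c₁ * c₁'))⁻¹ : k[X]) * C (ev (c₁ * c₁')) = 1 := by
      rw [← C_mul, inv_mul_cancel₀ hn1, C_1]
    linear_combination h1 - C (ev (c₁ * c₁'))⁻¹ * ha'
  · apply natDegree_eq_of_le_of_coeff_ne_zero
    · rw [natDegree_le_iff_coeff_eq_zero]
      intro i hi
      rw [coeff_map]
      apply hev
      apply hker
      rw [← coeff_map]
      exact coeff_eq_zero_of_natDegree_lt hi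
    · rw [coeff_map]
      exact hn4
  · intro y
    rw [hzero y, hzeroT y]
    constructor
    · intro hy
      rw [IsRoot.def] at hy
      constructor
      · intro F hF
        have h1 := congrArg (fun P : k[X] => P.eval y) (hb' F hF)
        simp only [Polynomial.map_mul, eval_mul, map_C, eval_C, hy, zero_mul] at h1
        have h2 : ev (cF F) ≠ 0 := by
          intro h3
          apply hn5
          exact Finset.prod_eq_zero hF h3
        exact (mul_eq_zero.1 h1).resolve_left h2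
      · intro hG
        rw [IsRoot.def] at hG
        have h1 := congrArg (fun P : k[X] => P.eval y) hc'
        simp only [Polynomial.map_mul, Polynomial.map_add, eval_add, eval_mul, map_C, eval_C, hy,
          hG, mul_zero, add_zero] at h1
        exact hn2 h1
    · rintro ⟨hF, hG⟩
      have h1 := congrArg (fun P : k[X] => P.eval y) hd'
      have h2 : (W.map ev).eval y = 0 := (hzeroT y).2 hF W hWI
      simp only [Polynomial.map_mul, Polynomial.map_pow, eval_mul, eval_pow, map_C, eval_C,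
        h2] at h1
      have h3 := (mul_eq_zero.1 h1).resolve_left hn3
      have h5 : (Q.map ev).eval y * (G.map ev).eval y = 0 := by
        by_contra h6
        exact pow_ne_zero M h6 h3
      exact (mul_eq_zero.1 h5).resolve_right hG

end Frac

end A10a

/-- mod:A10a. -/
theorem exists_separable_fiber {τ : Type} [Finite τ] (J : Ideal (MvPolynomial τ ℂ)) [J.IsPrime]
    (S : Set (MvPolynomial τ ℂ)[X]) (G : (MvPolynomial τ ℂ)[X])
    (hS : ∃ F ∈ S, ∃ k, F.coeff k ∉ J) :
    ∃ h ∉ J, ∃ (Q : (MvPolynomial τ ℂ)[X]) (e : ℕ), ∀ x : τ → ℂ,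
      (∀ f ∈ J, MvPolynomial.eval x f = 0) → MvPolynomial.eval x h ≠ 0 →
        (Q.map (MvPolynomial.eval x)).Separable ∧
        (Q.map (MvPolynomial.eval x)).natDegree = e ∧
        ∀ y, (Q.map (MvPolynomial.eval x)).IsRoot y ↔
          (∀ F ∈ S, (F.map (MvPolynomial.eval x)).IsRoot y) ∧
            ¬ (G.map (MvPolynomial.eval x)).IsRoot y := by
  let K := FractionRing (MvPolynomial τ ℂ ⧸ J)
  let φ : MvPolynomial τ ℂ →+* K := (algebraMap (MvPolynomial τ ℂ ⧸ J) K).comp (Ideal.Quotient.mk J)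
  have hinj : Function.Injective (algebraMap (MvPolynomial τ ℂ ⧸ J) K) :=
    IsFractionRing.injective _ _
  have hker : ∀ a, φ a = 0 → a ∈ J := by
    intro a ha
    have h1 : algebraMap (MvPolynomial τ ℂ ⧸ J) K (Ideal.Quotient.mk J a) = 0 := ha
    rw [map_eq_zero_iff _ hinj] at h1
    exact Ideal.Quotient.eq_zero_iff_mem.1 h1
  have hφ : ∀ a ∈ J, φ a = 0 := by
    intro a ha
    change algebraMap (MvPolynomial τ ℂ ⧸ J) K (Ideal.Quotient.mk J a) = 0
    rw [Ideal.Quotient.eq_zero_iff_mem.2 ha, map_zero]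
  have hfrac : ∀ z : K, ∃ c ∉ J, ∃ a, φ c * z = φ a := by
    intro z
    obtain ⟨a, b, hb, rfl⟩ := IsFractionRing.div_surjective (A := MvPolynomial τ ℂ ⧸ J) z
    obtain ⟨a, rfl⟩ := Ideal.Quotient.mk_surjective a
    obtain ⟨b, rfl⟩ := Ideal.Quotient.mk_surjective b
    have hb0 : Ideal.Quotient.mk J b ≠ 0 := nonZeroDivisors.ne_zero hb
    refine ⟨b, fun h => hb0 (Ideal.Quotient.eq_zero_iff_mem.2 h), a, ?_⟩
    have h2 : algebraMap (MvPolynomial τ ℂ ⧸ J) K (Ideal.Quotient.mk J b) ≠ 0 := by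
      rw [Ne, map_eq_zero_iff _ hinj]
      exact hb0
    change algebraMap (MvPolynomial τ ℂ ⧸ J) K (Ideal.Quotient.mk J b) * _ =
      algebraMap (MvPolynomial τ ℂ ⧸ J) K (Ideal.Quotient.mk J a)
    rw [mul_div_assoc', mul_div_cancel_left₀ _ h2]
  have : CharZero K := by
    have h0 : Function.Injective (φ.comp MvPolynomial.C) := (φ.comp MvPolynomial.C).injective
    exact (RingHom.charZero_iff h0).1 inferInstance
  obtain ⟨h, hh, Q, e, H⟩ := A10a.main φ J hker hφ hfrac S G hS ℂ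
  exact ⟨h, hh, Q, e, fun x hx hne => H (MvPolynomial.eval x) hx hne⟩

end Pool.Agent.helper65.GCA
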